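import Mathlib
import Pool.Agent.X231.Gabor

set_option autoImplicit false

open Pool.Agent.X231.FrameRep Pool.Agent.X231.Gabor

namespace Pool.Agent.Results.MP_5c6457_an.Universal

/-- The bijection `σ : I ≃ ℤ²` is universal: for every Gabor frame `𝒢(g,a,b)` some ordering of
which, indexed by `I`, admits a bounded representation, the ordering given by `σ` admits one. -/
def IsUniversal {I : Type} [Add I] [One I] (σ : I ≃ ℤ × ℤ) : Prop :=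
  ∀ (g : L2R) (a b : ℝ), g ≠ 0 → 0 < a → 0 < b → IsFrame (gabor g a b) →
    (∃ σ' : I ≃ ℤ × ℤ, HasBoundedRep (fun k => gabor g a b (σ' k))) →
      HasBoundedRep (fun k => gabor g a b (σ k))

/-- For `I = ℕ` and for `I = ℤ` there is a universal bijection; in fact every bijection is. -/
theorem result : ((∃ σ : ℕ ≃ ℤ × ℤ, IsUniversal σ) ∧ ∀ σ : ℕ ≃ ℤ × ℤ, IsUniversal σ) ∧
    ((∃ σ : ℤ ≃ ℤ × ℤ, IsUniversal σ) ∧ ∀ σ : ℤ ≃ ℤ × ℤ, IsUniversal σ) := by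
  have hN : ∀ σ : ℕ ≃ ℤ × ℤ, IsUniversal σ := by
    rintro σ g a b hg - - hframe ⟨σ', h⟩
    exact rep_of_riesz (main_nat hframe (gabor_ne g hg a b) (gabor_cov g a b) σ' h) σ
  have hZ : ∀ σ : ℤ ≃ ℤ × ℤ, IsUniversal σ := by
    rintro σ g a b hg - - hframe ⟨σ', h⟩
    exact rep_of_riesz (main_int hframe (gabor_ne g hg a b) (gabor_cov g a b) σ' h) σ
  have e1 : ℕ ≃ ℤ × ℤ := (Denumerable.eqv (ℤ × ℤ)).symm
  have e2 : ℤ ≃ ℤ × ℤ := (Denumerable.eqv ℤ).trans e1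
  exact ⟨⟨⟨e1, hN e1⟩, hN⟩, ⟨⟨e2, hZ e2⟩, hZ⟩⟩

end Pool.Agent.Results.MP_5c6457_an.Universal
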